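import Mathlib

namespace Pool.Agent.Results.MP_2fa0cb_nt.RankTwo
open Polynomial Pointwise

/-- a rational function as a self-map of the projective line; `none` is the point at infinity. -/
noncomputable def ev (h : RatFunc ℂ) : Option ℂ → Option ℂ
  | some x => if h.denom.eval x = 0 then none else some (h.num.eval x / h.denom.eval x)
  | none => if h.denom.natDegree < h.num.natDegree then none
      else some (h.num.coeff h.denom.natDegree / h.denom.leadingCoeff)

/-- the degree of a rational function. -/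
noncomputable def deg (h : RatFunc ℂ) : ℕ := max h.num.natDegree h.denom.natDegree

/-- the rank-two recurrence set. -/
def S2 (f g c : RatFunc ℂ) : Set (ℕ × ℕ) :=
  {v | ∃ x : Option ℂ, ev c x = (ev f)^[v.1] x ∧ (ev f)^[v.1] x = (ev g)^[v.2] x}

def Per (S : Set (ℕ × ℕ)) : Prop :=
  ∃ D C : ℕ, 0 < D ∧ ∀ m n k, C * (n + 1) ≤ m → (m, n) ∈ S → (m + D * k, n) ∈ S

lemma per_lin {S : Set (ℕ × ℕ)} (h : IsLinearSet S) : Per S := by
  obtain ⟨a, t, ht, rfl⟩ := h
  by_cases hp : ∃ p ∈ t, p.2 = 0 ∧ 0 < p.1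
  · obtain ⟨p, hpt, h2, h1⟩ := hp
    refine ⟨p.1, 0, h1, fun m n k _ hm => ?_⟩
    obtain ⟨w, hw, he⟩ := Set.mem_vadd_set.1 hm
    refine Set.mem_vadd_set.2 ⟨w + k • p, add_mem hw (nsmul_mem (AddSubmonoid.subset_closure hpt) k), ?_⟩
    rw [vadd_eq_add] at he ⊢
    rw [← add_assoc, he]
    ext <;> simp [h2, mul_comm]
  · push Not at hp
    obtain ⟨B, hB⟩ := (ht.image Prod.fst).bddAbove
    have key : ∀ w ∈ AddSubmonoid.closure t, w.1 ≤ B * w.2 := by
      intro w hw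
      induction hw using AddSubmonoid.closure_induction with
      | mem p hpt =>
        rcases Nat.eq_zero_or_pos p.2 with h | h
        · have := hp p hpt h
          omega
        · have : p.1 ≤ B := hB ⟨p, hpt, rfl⟩
          nlinarith
      | zero => simp
      | add x y _ _ hx hy =>
        simp only [Prod.fst_add, Prod.snd_add]
        nlinarith
    refine ⟨1, a.1 + B + 1, one_pos, fun m n k hC hm => ?_⟩
    obtain ⟨w, hw, he⟩ := Set.mem_vadd_set.1 hm
    have h1 : a.1 + w.1 = m := congrArg Prod.fst he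
    have h2 : a.2 + w.2 = n := congrArg Prod.snd he
    have := key w hw
    have : B * w.2 ≤ B * n := Nat.mul_le_mul_left _ (by omega)
    nlinarith [Nat.zero_le (a.1 * n)]

lemma per_semi {S : Set (ℕ × ℕ)} (h : IsSemilinearSet S) : Per S := by
  obtain ⟨T, hT, hl, rfl⟩ := h
  induction T, hT using Set.Finite.induction_on with
  | empty => exact ⟨1, 0, one_pos, by simp⟩
  | @insert a s _ _ ih =>
    obtain ⟨D1, C1, h1, H1⟩ := per_lin (hl a (by simp))
    obtain ⟨D2, C2, h2, H2⟩ := ih (fun t ht => hl t (by simp [ht]))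
    refine ⟨D1 * D2, C1 + C2, by positivity, fun m n k hC hm => ?_⟩
    rw [Set.sUnion_insert] at hm ⊢
    rcases hm with hm | hm
    · left
      rw [mul_assoc]
      exact H1 _ _ _ (by nlinarith [Nat.zero_le (C2 * (n + 1))]) hm
    · right
      rw [mul_comm D1, mul_assoc]
      exact H2 _ _ _ (by nlinarith [Nat.zero_le (C1 * (n + 1))]) hm

noncomputable def F : RatFunc ℂ := algebraMap ℂ[X] _ (X ^ 2)

noncomputable def Cc (w : ℂ) : RatFunc ℂ := algebraMap ℂ[X] _ (C w) / algebraMap ℂ[X] _ X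

lemma Fn : F.num = X ^ 2 := RatFunc.num_algebraMap _
lemma Fd : F.denom = 1 := RatFunc.denom_algebraMap _

lemma F_some (m : ℕ) (x : ℂ) : (ev F)^[m] (some x) = some (x ^ 2 ^ m) := by
  induction m with
  | zero => simp
  | succ m ih =>
    rw [Function.iterate_succ_apply', ih]
    simp [ev, Fn, Fd, pow_succ, pow_mul]

lemma F_none (m : ℕ) : (ev F)^[m] none = none :=
  Function.iterate_fixed (by simp [ev, Fn, Fd]) m

lemma Cnd {w : ℂ} (hw : w ≠ 0) : (Cc w).denom = X ∧ (Cc w).num = C w := by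
  have h := (RatFunc.num_mul_eq_mul_denom_iff (x := Cc w) (p := C w) (q := X) X_ne_zero).2 rfl
  have h1 : (Cc w).denom ∣ X := RatFunc.denom_div_dvd _ _
  have h2 : X ∣ (Cc w).denom := by
    have : X ∣ C w * (Cc w).denom := ⟨(Cc w).num, by rw [← h]; ring⟩
    exact (IsUnit.dvd_mul_left (isUnit_C.2 hw.isUnit)).1 this
  have h3 : (Cc w).denom = X :=
    eq_of_monic_of_associated (RatFunc.monic_denom _) monic_X (associated_of_dvd_dvd h1 h2)
  refine ⟨h3, ?_⟩
  rw [h3] at h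
  exact mul_right_cancel₀ X_ne_zero h

lemma mem {w : ℂ} (hw : w ≠ 0) (m n : ℕ) : (m, n) ∈ S2 F F (Cc w) ↔
    ∃ x : ℂ, x ^ (2 ^ m + 1) = w ∧ x ^ (2 ^ n + 1) = w := by
  obtain ⟨hd, hn⟩ := Cnd hw
  constructor
  · rintro ⟨x, h1, h2⟩
    cases x with
    | none =>
      rw [F_none] at h1
      simp [ev, hd, hn] at h1
    | some x =>
      rw [F_some] at h1 h2
      rw [F_some] at h2
      by_cases hx : x = 0
      · simp [ev, hd, hx] at h1
      · simp only [ev, hd, hn, eval_X, hx, if_false, eval_C, Option.some.injEq] at h1 h2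
        refine ⟨x, ?_, ?_⟩
        · rw [pow_succ, ← h1]; field_simp
        · rw [pow_succ, ← h2, ← h1]; field_simp
  · rintro ⟨x, h1, h2⟩
    have hx : x ≠ 0 := by
      rintro rfl
      exact hw (by simpa using h1.symm)
    refine ⟨some x, ?_, ?_⟩
    · rw [F_some]
      simp only [ev, hd, hn, eval_X, hx, if_false, eval_C, Option.some.injEq]
      rw [← h1, pow_succ]; field_simp
    · rw [F_some, F_some]
      congr 1
      rw [pow_succ] at h1 h2
      exact mul_right_cancel₀ hx (h1.trans h2.symm)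

lemma val (e : ℕ) : ∃ u : ℕ, 2 ^ 3 ^ e + 1 = 3 ^ (e + 1) * (3 * u + 1) := by
  induction e with
  | zero => exact ⟨0, by norm_num⟩
  | succ e ih =>
    obtain ⟨u, hu⟩ := ih
    have hz : (2 : ℤ) ^ 3 ^ e = 3 ^ (e + 1) * (3 * u + 1) - 1 := by
      have : ((2 ^ 3 ^ e + 1 : ℕ) : ℤ) = ((3 ^ (e + 1) * (3 * u + 1) : ℕ) : ℤ) := by rw [hu]
      push_cast at this
      linarith
    obtain ⟨q, hq⟩ : ∃ q : ℕ, 3 ^ e * (3 * u + 1) = q + 1 :=
      ⟨3 ^ e * (3 * u + 1) - 1, by have : 0 < 3 ^ e * (3 * u + 1) := by positivity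
                                   omega⟩
    have hq' : (3 : ℤ) ^ e * (3 * u + 1) = q + 1 := by exact_mod_cast hq
    refine ⟨u + (3 * u + 1) * (q + 1) * q, ?_⟩
    zify
    rw [pow_succ 3 e, pow_mul, hz]
    have : (q : ℤ) = 3 ^ e * (3 * u + 1) - 1 := by linarith
    rw [this]
    ring

theorem result : ∃ f g c : RatFunc ℂ, deg f = 2 ∧ deg g = 2 ∧ deg c = 1 ∧
    ¬ IsSemilinearSet (S2 f g c) := by
  have hw := Complex.isPrimitiveRoot_exp 3 (by norm_num)
  set w := Complex.exp (2 * Real.pi * Complex.I / (3 : ℕ)) with hwd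
  have hw0 : w ≠ 0 := hw.ne_zero (by norm_num)
  refine ⟨F, F, Cc w, by simp [deg, Fn, Fd], by simp [deg, Fn, Fd],
    by simp [deg, (Cnd hw0).1, (Cnd hw0).2], fun h => ?_⟩
  obtain ⟨D, C, hD, H⟩ := per_semi h
  obtain ⟨u, hu⟩ := val D
  obtain ⟨z, hz⟩ := IsAlgClosed.exists_pow_nat_eq w (n := 3 ^ (D + 1)) (by positivity)
  have hz1 : z ^ 3 ^ (D + 2) = 1 := by rw [pow_succ, pow_mul, hz, hw.pow_eq_one]
  set n := 3 ^ D with hn
  set t := C * (n + 1) with ht
  set r := Nat.totient (3 ^ (D + 2)) * t with hr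
  have hx : (z ^ (3 * u + 1)) ^ (2 ^ n + 1) = w := by
    rw [hu, ← pow_mul, mul_comm (3 * u + 1), mul_assoc, pow_mul, hz,
      show (3 * u + 1) * (3 * u + 1) = 3 * (3 * u * u + 2 * u) + 1 by ring, pow_succ, pow_mul,
      hw.pow_eq_one]
    simp
  have hE : 2 ^ r ≡ 1 [MOD 3 ^ (D + 2)] := by
    have := (Nat.ModEq.pow_totient (x := 2) (n := 3 ^ (D + 2))
      (Nat.Coprime.pow_right _ (by norm_num))).pow t
    rwa [← pow_mul, one_pow] at this
  have hm : (n + r, n) ∈ S2 F F (Cc w) := by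
    refine (mem hw0 _ _).2 ⟨z ^ (3 * u + 1), ?_, hx⟩
    rw [← hx]
    have h1 : (z ^ (3 * u + 1)) ^ 3 ^ (D + 2) = 1 := by
      rw [← pow_mul, mul_comm, pow_mul, hz1, one_pow]
    have h2 : 2 ^ (n + r) + 1 ≡ 2 ^ n + 1 [MOD 3 ^ (D + 2)] := by
      have := (hE.mul_left (2 ^ n)).add_right 1
      rwa [← pow_add, mul_one] at this
    rw [pow_eq_pow_mod _ h1, h2, ← pow_eq_pow_mod _ h1]
  have hφ : Nat.totient (3 ^ (D + 2)) = 3 ^ (D + 1) * 2 :=
    Nat.totient_prime_pow_succ Nat.prime_three _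
  have hle : C * (n + 1) ≤ n + r := by
    have : 1 ≤ Nat.totient (3 ^ (D + 2)) := by rw [hφ]; exact Nat.succ_le_of_lt (by positivity)
    nlinarith [Nat.zero_le t]
  obtain ⟨x, h1, h2⟩ := (mem hw0 _ _).1 (H _ _ 1 hle hm)
  have hx0 : x ≠ 0 := by
    rintro rfl
    exact hw0 (by simpa using h1.symm)
  set s := r + D with hs
  have hs0 : s ≠ 0 := by omega
  obtain ⟨N, hN⟩ : ∃ N, 2 ^ s = N + 1 :=
    Nat.exists_eq_succ_of_ne_zero (by positivity)
  have hxN : x ^ (2 ^ n * N) = 1 := by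
    have e1 : 2 ^ (n + r + D * 1) + 1 = 2 ^ n * N + (2 ^ n + 1) := by
      rw [show n + r + D * 1 = n + s by omega, pow_add, hN]; ring
    rw [e1, pow_add, h2] at h1
    exact mul_right_cancel₀ hw0 (by rw [h1, one_mul])
  have hN0 : N ≠ 0 := by
    rintro rfl
    have := Nat.one_lt_two_pow hs0
    omega
  haveI : Fact (Nat.Prime 3) := ⟨Nat.prime_three⟩
  obtain ⟨j, v, hv, hjv⟩ := Nat.exists_eq_pow_mul_and_not_dvd hN0 3 (by norm_num)
  have hj : D + 2 ≤ j := by
    by_contra hj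
    obtain ⟨i, hi⟩ : ∃ i, D + 1 = j + i := ⟨D + 1 - j, by omega⟩
    have : w ^ (2 ^ n * v) = 1 := by
      rw [← h2, ← pow_mul, hu, hi,
        show 3 ^ (j + i) * (3 * u + 1) * (2 ^ n * v) = 2 ^ n * N * (3 ^ i * (3 * u + 1)) by
          rw [hjv]; ring, pow_mul, hxN, one_pow]
    rcases (Nat.Prime.dvd_mul Nat.prime_three).1 (hw.dvd_of_pow_eq_one _ this) with h3 | h3
    · have := Nat.prime_three.dvd_of_dvd_pow h3
      omega
    · exact hv h3
  have hd : 3 ^ (D + 2) ∣ 4 ^ s - 1 ^ s := by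
    have : 4 ^ s - 1 ^ s = N * (N + 2) := by
      rw [show (4 : ℕ) = 2 ^ 2 by norm_num, ← pow_mul, mul_comm 2 s, pow_mul, hN, one_pow]
      apply Nat.sub_eq_of_eq_add
      ring
    rw [this, hjv]
    exact ((pow_dvd_pow 3 hj).mul_right _).mul_right _
  have hL := padicValNat.pow_sub_pow (p := 3) (x := 4) (y := 1) (by decide) (by norm_num)
    (by norm_num) (by norm_num) hs0
  have hne : 4 ^ s - 1 ^ s ≠ 0 := Nat.sub_ne_zero_of_lt (Nat.pow_lt_pow_left (by norm_num) hs0)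
  have h5 := (padicValNat_dvd_iff_le hne).1 hd
  rw [hL, show (4 : ℕ) - 1 = 3 by norm_num, padicValNat_self] at h5
  have h6 : 3 ^ (D + 1) ∣ s := (padicValNat_dvd_iff_le hs0).2 (by omega)
  have h7 : 3 ^ (D + 1) ∣ r := by rw [hr, hφ]; exact (Dvd.intro _ rfl).mul_right _
  have h8 : 3 ^ (D + 1) ∣ D := (Nat.dvd_add_right h7).1 h6
  have h9 := Nat.le_of_dvd hD h8
  have : D + 1 < 3 ^ (D + 1) := Nat.lt_pow_self (by norm_num)
  omega

end Pool.Agent.Results.MP_2fa0cb_nt.RankTwo
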